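import Pool.Agent.U62.RB.Klo
import Pool.Agent.U581.FL.Run

/-!
# An invariance principle for the Kloosterman angles of random integers

Let `S(a, 1; p) = 2 √p cos θ_p(a)`, let `f_p : ℝ → [-1, 1]` be arbitrary functions (for example indicator functions of intervals) and
let `P` be a finite set of primes. For random integers `a`, `|a| ≤ H`, the errors `f_p(cos θ_p(a)) - E f_p(cos θ_p)`, where the
expectation is the mean value over the residues `a` modulo `p`, are summed up over the primes `p ∈ P` in increasing order. The partial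
sums, divided by the square root of the variance of the total sum in the model of independent primes, form a random
polygonal path on `[0, 1]`. We show that this path has, as a random element of the space of continuous functions on `[0, 1]`,
approximately the law of a Brownian motion which is run by the clock given by the partial sums of the variances.
-/

set_option autoImplicit false

namespace Pool.Agent.Results.MP_6ea630_nt.InvariancePrinciple

open Finset MeasureTheory ProbabilityTheory
open scoped BoundedContinuousFunction NNReal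

/-- The Kloosterman sum `S(a, 1; p)`. -/
noncomputable def kloosterman (a : ℤ) (p : ℕ) : ℝ :=
  ∑ x ∈ Ico 1 p, Real.cos (2 * Real.pi * ((((a : ZMod p) * (x : ZMod p) + (x : ZMod p)⁻¹).val : ℕ) : ℝ) / (p : ℝ))

/-- The value of the function `f` at `cos θ_p(a) = S(a, 1; p) / (2 √p)`, and `0` if `p` divides `a`. -/
noncomputable def value (f : ℝ → ℝ) (a : ℤ) (p : ℕ) : ℝ :=
  if (p : ℤ) ∣ a then 0 else f (kloosterman a p / (2 * √p))

/-- The mean value of `value f a p` over the residues `a` modulo `p`. -/
noncomputable def mean (f : ℝ → ℝ) (p : ℕ) : ℝ := (∑ t ∈ range p, value f t p) / p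

/-- The variance of `value f a p` over the residues `a` modulo `p`. -/
noncomputable def variance (f : ℝ → ℝ) (p : ℕ) : ℝ := (∑ t ∈ range p, value f t p ^ 2) / p - mean f p ^ 2

/-- The polygonal path of the partial sums of `g(p)` over the primes `p ∈ P` in increasing order, divided by `s`: the factor of
the term of `p` is `0` for `|P| t ≤ r` and `1` for `|P| t ≥ r + 1`, where `r` is the number of the members of `P` which are smaller
than `p`, and it is linear in between. At the time `m / |P|` the path is `1 / s` times the sum over the `m` smallest members of `P`. -/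
noncomputable def path (P : Finset ℕ) (s : ℝ) (g : ℕ → ℝ) : C(unitInterval, ℝ) where
  toFun t := (∑ p ∈ P, g p * max 0 (min 1 (P.card * (t : ℝ) - (P.filter (fun q => q < p)).card))) / s
  continuous_toFun := by fun_prop

/-- The mean value of `g` over the integers `a` of absolute value at most `H`. -/
noncomputable def average (H : ℕ) (g : ℤ → ℝ) : ℝ := (∑ a ∈ Finset.Icc (-(H : ℤ)) H, g a) / (2 * H + 1)

/-- The function `t ↦ B (τ t)` on `[0, 1]` as a continuous function (and `0` if it is not continuous). -/
noncomputable def runPath {Ω : Type} (B : ℝ≥0 → Ω → ℝ) (τ : C(unitInterval, ℝ)) (ω : Ω) : C(unitInterval, ℝ) :=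
  ContinuousMap.mkD (fun t : unitInterval => B (τ t).toNNReal ω) 0

theorem lmean_range (f : ℤ → ℝ) (p : ℕ) :
    Pool.Agent.U62.RB.lmean (fun c : Fin 1 → ℤ => f (c 0)) p = (∑ t ∈ range p, f t) / p := by
  unfold Pool.Agent.U62.RB.lmean
  rw [pow_one]
  congr 1
  refine Finset.sum_bij (fun t _ => t 0) ?_ ?_ ?_ ?_
  · intro t ht
    rw [Fintype.mem_piFinset] at ht
    exact ht 0
  · intro t _ t' _ h
    funext i
    rw [Subsingleton.elim i 0]
    exact h
  · intro a ha
    refine ⟨fun _ => a, ?_, rfl⟩
    rw [Fintype.mem_piFinset]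
    exact fun _ => ha
  · intro t _
    rfl

theorem average_eq (H : ℕ) (f : ℤ → ℝ) :
    Pool.Agent.Y722.HS.EB H (fun c : Fin 1 → ℤ => f (c 0)) = average H f := by
  unfold average Pool.Agent.Y722.HS.EB Pool.Agent.Y722.HS.box Pool.Agent.Y722.HS.IH
  rw [Fintype.card_fin, pow_one]
  congr 1
  refine Finset.sum_bij (fun t _ => t 0) ?_ ?_ ?_ ?_
  · intro t ht
    rw [Fintype.mem_piFinset] at ht
    exact ht 0
  · intro t _ t' _ h
    funext i
    rw [Subsingleton.elim i 0]
    exact h
  · intro a ha
    refine ⟨fun _ => a, ?_, rfl⟩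
    rw [Fintype.mem_piFinset]
    exact fun _ => ha
  · intro t _
    rfl

theorem value_congr (f : ℝ → ℝ) (p : ℕ) {a b : ℤ} (h : (p : ℤ) ∣ a - b) : value f a p = value f b p := by
  unfold value
  have e : kloosterman a p = kloosterman b p := Pool.Agent.U62.RB.kl_congr h
  rw [e]
  by_cases ha : (p : ℤ) ∣ a
  · rw [if_pos ha, if_pos ((dvd_iff_dvd_of_dvd_sub h).1 ha)]
  · rw [if_neg ha, if_neg fun hb => ha ((dvd_iff_dvd_of_dvd_sub h).2 hb)]

theorem value_abs {f : ℝ → ℝ} (hf : ∀ t, |f t| ≤ 1) (a : ℤ) (p : ℕ) : |value f a p| ≤ 1 := by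
  unfold value
  split_ifs
  · rw [abs_zero]
    exact zero_le_one
  · exact hf _

theorem path_eq (P : Finset ℕ) (s : ℝ) (g : ℕ → ℝ) : path P s g = Pool.Agent.U581.FL.ppath P s g := by
  ext t
  rw [Pool.Agent.U581.FL.ppath_apply]
  rfl

/-- **The invariance principle for the Kloosterman angles of random integers.** Let `B` be a Brownian motion and `F` a bounded
continuous function on the space of the continuous functions on `[0, 1]`. For `δ, ε > 0` there is a `K` with the following
property. Let `P` be a set of at least `K` primes `p ≤ y`, let `f_p : ℝ → [-1, 1]` be functions for which the sum `V` over the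
`p ∈ P` of the variances of `f_p(cos θ_p(a))` is at least `δ |P|`, and let `H ≥ y ^ K`. Then the mean value over the integers
`a`, `|a| ≤ H`, of `F` at the polygonal path of the partial sums of `(f_p(cos θ_p(a)) - mean value) / √V` differs by at most `ε`
from the expectation of `F` at the path `t ↦ B (τ(t))`, where `τ` is the polygonal path of the partial sums of the variances, divided
by `V`. -/
theorem result {Ω : Type} [MeasurableSpace Ω] (μ : Measure Ω) [IsProbabilityMeasure μ] (B : ℝ≥0 → Ω → ℝ)
    (hB : IsBrownianReal B μ) (F : C(unitInterval, ℝ) →ᵇ ℝ) (δ ε : ℝ) (hδ : 0 < δ) (hε : 0 < ε) :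
    ∃ K : ℕ, ∀ (f : ℕ → ℝ → ℝ) (P : Finset ℕ) (y H : ℕ),
      (∀ p ∈ P, p.Prime ∧ p ≤ y) → (∀ p ∈ P, ∀ t, |f p t| ≤ 1) → K ≤ P.card →
      δ * P.card ≤ ∑ p ∈ P, variance (f p) p → y ^ K ≤ H →
      |average H (fun a => F (path P (√(∑ p ∈ P, variance (f p) p)) fun p => value (f p) a p - mean (f p) p)) -
        ∫ ω, F (runPath B (path P (∑ p ∈ P, variance (f p) p) fun p => variance (f p) p) ω) ∂μ| ≤ ε := by
  letI : MeasurableSpace C(unitInterval, ℝ) := borel _
  haveI : BorelSpace C(unitInterval, ℝ) := ⟨rfl⟩
  obtain ⟨K, hK⟩ := Pool.Agent.U581.FL.prof_run 1 one_pos hδ hB F hε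
  refine ⟨K, fun f P y H hP hf hc hV hH => ?_⟩
  set G : ℕ → (Fin 1 → ℤ) → ℝ := fun p c => value (f p) (c 0) p with hG
  have e1 : ∀ p, Pool.Agent.U62.RB.lmean (G p) p = mean (f p) p := fun p =>
    lmean_range (fun a => value (f p) a p) p
  have e2 : ∀ p, Pool.Agent.U62.RB.lvar (G p) p = variance (f p) p := by
    intro p
    unfold Pool.Agent.U62.RB.lvar variance
    rw [e1]
    have := lmean_range (fun a => value (f p) a p ^ 2) p
    rw [← this]
  have e3 : Pool.Agent.U581.FL.totV G P = ∑ p ∈ P, variance (f p) p :=
    Finset.sum_congr rfl fun p _ => e2 p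
  have h := hK G P y H hP hc (fun p _ c c' hc => value_congr (f p) p (hc 0))
    (fun p hp c => value_abs (hf p hp) _ _) (by rw [e3]; exact hV) hH
  simp only [e1, e2, e3] at h
  rw [← average_eq]
  simp only [path_eq]
  exact h

end Pool.Agent.Results.MP_6ea630_nt.InvariancePrinciple
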