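import Pool.Agent.U471.DQ.Joint
import Pool.Agent.Results.MP_6ea630_nt.NonIntegralOrderValues

/-!
# The Kloosterman angles of several integers at several consecutive primes: all boxes and all patterns of signs, for all the
integer vectors close to almost all points of a real polynomial curve

From Mathlib: `Polynomial.eval`, `Polynomial.coeff`, `Polynomial.natDegree`: real polynomials; `Nat.nth Nat.Prime k`: the
prime with the index `k`, starting with `k = 0`; `Set.OrdConnected`: intervals; `IsAlgebraic ℚ`: algebraic numbers.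

Method: Weyl's inequality without losses for all the coefficients at the same time (an inverse theorem, from the starting
files for the top coefficient), a discrete Fejer kernel for the integer parts of several functions, uniform distribution
of the vectors in residue classes modulo products of primes with a power saving, high moments; the
signs in the finite-field model are from the starting files (`NonIntegralOrderValues`, `Pool.Agent.TH894.NF3`).
-/

set_option autoImplicit false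

namespace Pool.Agent.Results.MP_6ea630_nt.JointRealPolynomials

open Finset

/-- The polynomials `f 0, ..., f (r - 1)` are not on major arcs, at the scale `N` and with the parameter `R`: for every
integer vector `l ≠ 0` with all `|l i| ≤ R` there is `1 ≤ j ≤ d` such that the number
`∑ i, l i * (coefficient of f i at X ^ j)` has a distance of more than `R / N ^ j` from all the integers. -/
def Generic {r : ℕ} (d N : ℕ) (R : ℝ) (f : Fin r → Polynomial ℝ) : Prop :=
  ∀ l : Fin r → ℤ, l ≠ 0 → (∀ i, (|l i| : ℝ) ≤ R) → ∃ j : ℕ, 1 ≤ j ∧ j ≤ d ∧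
    ∀ b : ℤ, R / (N : ℝ) ^ j < |∑ i, (l i : ℝ) * (f i).coeff j - b|

/-- `α` has a finite irrationality exponent. -/
def FiniteType (α : ℝ) : Prop := ∃ (w : ℕ) (c : ℝ), 0 < c ∧ ∀ q : ℕ, 1 ≤ q → ∀ a : ℤ, c / (q : ℝ) ^ w ≤ |q * α - a|

/-- The Kloosterman sum `S(a, 1; p)`. -/
noncomputable def kloosterman (p : ℕ) (a : ℤ) : ℝ :=
  ∑ x ∈ Ico 1 p, Real.cos (2 * Real.pi * ((((a : ZMod p) * (x : ZMod p) + (x : ZMod p)⁻¹).val : ℕ) : ℝ) / (p : ℝ))

/-- The angle `θ / π` in `[0, 1]`, where `2 p ^ (1 / 2) cos θ = S(a, 1; p)`, and `1 / 2` if `p` divides `a`. -/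
noncomputable def angle (p : ℕ) (a : ℤ) : ℝ :=
  if (p : ℤ) ∣ a then 1 / 2 else Real.arccos (kloosterman p a / (2 * √(p : ℝ))) / Real.pi

open Classical in
/-- The number of the indices `k < K` for which the angles of `S(a i, 1; p)` for all `i < r` at the `s` consecutive primes `p`
with the indices `k + j`, `j < s` (the primes are numbered from `0`), are in the sets `I i j`. -/
noncomputable def boxCount {r s : ℕ} (I : Fin r → Fin s → Set ℝ) (K : ℕ) (a : Fin r → ℤ) : ℕ :=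
  ((range K).filter (fun k => ∀ (i : Fin r) (j : Fin s), angle (Nat.nth Nat.Prime (k + j)) (a i) ∈ I i j)).card

open Classical in
/-- The proportion of the residues `t` modulo `p` for which the angle of `S(t, 1; p)` is in `S`. -/
noncomputable def proportion (p : ℕ) (S : Set ℝ) : ℝ := (((range p).filter (fun t : ℕ => angle p (t : ℤ) ∈ S)).card : ℝ) / p

/-- The expected number: the sum over `k < K` of the product of the proportions for all `i` and `j`. -/
noncomputable def boxModel {r s : ℕ} (I : Fin r → Fin s → Set ℝ) (K : ℕ) : ℝ :=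
  ∑ k ∈ range K, ∏ j : Fin s, ∏ i : Fin r, proportion (Nat.nth Nat.Prime (k + j)) (I i j)

open Classical in
/-- The number of the indices `k < K` such that for all `i < r`, `j < s` the prime `p` with the index `k + j` does not divide
`a i` and `σ i j S(a i, 1; p) > η p ^ (1 / 2)`. -/
noncomputable def signCount {r s : ℕ} (σ : Fin r → Fin s → ℝ) (η : ℝ) (K : ℕ) (a : Fin r → ℤ) : ℕ :=
  ((range K).filter (fun k => ∀ (i : Fin r) (j : Fin s), ¬ ((Nat.nth Nat.Prime (k + j) : ℕ) : ℤ) ∣ a i ∧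
    η * √((Nat.nth Nat.Prime (k + j) : ℕ) : ℝ) < σ i j * kloosterman (Nat.nth Nat.Prime (k + j)) (a i))).card

lemma angle_congr (p : ℕ) {a b : ℤ} (h : (p : ℤ) ∣ a - b) : angle p a = angle p b :=
  Pool.Agent.Results.MP_6ea630_nt.NonIntegralOrderValues.angle_congr p h

/-- the interval of the angles with a given sign -/
noncomputable def side (η σ : ℝ) : Set ℝ :=
  if σ = 1 then Set.Iio (Real.arccos (η / 2) / Real.pi) else Set.Ioi (Real.arccos (-(η / 2)) / Real.pi)

lemma side_oc (η σ : ℝ) : (side η σ).OrdConnected :=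
  Pool.Agent.Results.MP_6ea630_nt.NonIntegralOrderValues.side_oc η σ

lemma side_iff (η : ℝ) (hη : 0 ≤ η) (hη1 : η ≤ 1 / 4) (σ : ℝ) (hσ : σ = 1 ∨ σ = -1) (p : ℕ) (hp : 0 < p) (a : ℤ) :
    angle p a ∈ side η σ ↔ ¬ (p : ℤ) ∣ a ∧ η * √(p : ℝ) < σ * kloosterman p a :=
  Pool.Agent.Results.MP_6ea630_nt.NonIntegralOrderValues.side_iff η hη hη1 σ hσ p hp a

lemma prop_ge (η : ℝ) (hη : 0 ≤ η) (hη1 : η ≤ 1 / 4) (σ : ℝ) (hσ : σ = 1 ∨ σ = -1) (p : ℕ) (hp : p.Prime) :
    1 / 4 - η - 1 / √(p : ℝ) - 1 / p ≤ proportion p (side η σ) := by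
  have h := Pool.Agent.Results.MP_6ea630_nt.NonIntegralOrderValues.prop_ge η hη hη1 σ hσ p hp 0 1 (by
    intro hd
    have h1 := Int.le_of_dvd one_pos hd
    have h2 := hp.two_le
    omega)
  refine h.trans (le_of_eq ?_)
  have e : ∀ t : ℤ, (Polynomial.C (0 : ℤ) + Polynomial.C (1 : ℤ) * Polynomial.X).eval t = t := by
    intro t
    simp
  classical
  unfold Pool.Agent.Results.MP_6ea630_nt.NonIntegralOrderValues.proportion proportion
  congr 2
  refine congrArg card ?_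
  ext t
  rw [mem_filter, mem_filter, e]
  rfl

/-- the model for the signs -/
lemma model_ge (r s : ℕ) (hr : 1 ≤ r) (hs : 1 ≤ s) (η ε : ℝ) (hη : 0 ≤ η) (hη1 : η ≤ 1 / 4) (hε : 0 < ε) :
    ∃ k₁ : ℕ, ∀ n : ℕ, k₁ ≤ n → ∀ σ : Fin r → Fin s → ℝ, (∀ i j, σ i j = 1 ∨ σ i j = -1) →
      ((1 / 4 - η) ^ (s * r) - ε / 4) * (n - k₁) ≤ boxModel (fun i j => side η (σ i j)) n := by
  have hsr : 1 ≤ s * r := Nat.mul_pos hs hr
  have hsr' : (1 : ℝ) ≤ (s * r : ℕ) := by exact_mod_cast hsr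
  obtain ⟨ε₁, hε₁⟩ : ∃ ε₁, ε₁ = ε / (4 * (s * r : ℕ)) := ⟨_, rfl⟩
  have hε₁0 : 0 < ε₁ := by rw [hε₁]; positivity
  obtain ⟨k₁, hk₁⟩ := exists_nat_ge ((2 / ε₁) ^ 2 + 2 / ε₁ + 1)
  refine ⟨k₁, fun n hge σ hσ => ?_⟩
  have hnn : ∀ (p : ℕ) (S : Set ℝ), 0 ≤ proportion p S := by
    intro p S
    unfold proportion
    positivity
  unfold boxModel
  have h1 : ∀ k ∈ range n, 0 ≤ ∏ j : Fin s, ∏ i : Fin r, proportion (Nat.nth Nat.Prime (k + j)) (side η (σ i j)) :=
    fun k _ => prod_nonneg fun j _ => prod_nonneg fun i _ => hnn _ _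
  have hsub : Ico k₁ n ⊆ range n := by
    intro k hk
    rw [mem_Ico] at hk
    exact mem_range.2 hk.2
  refine le_trans ?_ (sum_le_sum_of_subset_of_nonneg hsub fun k hk _ => h1 k hk)
  have h2 : ∀ k ∈ Ico k₁ n, (1 / 4 - η) ^ (s * r) - ε / 4 ≤
      ∏ j : Fin s, ∏ i : Fin r, proportion (Nat.nth Nat.Prime (k + j)) (side η (σ i j)) := by
    intro k hk
    rw [mem_Ico] at hk
    by_cases hsm : 1 / 4 - η - ε₁ < 0
    · have h3 := h1 k (mem_range.2 hk.2)
      have h4 := Pool.Agent.TH894.NF.pow_diff (1 / 4 - η) 0 le_rfl (by linarith) (by linarith) (s * r)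
      rw [zero_pow (by omega)] at h4
      have h5 : ((s * r : ℕ) : ℝ) * (1 / 4 - η - 0) ≤ (s * r : ℕ) * ε₁ := mul_le_mul_of_nonneg_left (by linarith) (by linarith)
      have h6 : ((s * r : ℕ) : ℝ) * ε₁ = ε / 4 := by rw [hε₁]; field_simp
      linarith
    · push Not at hsm
      have h4 := Pool.Agent.TH894.NF.pow_diff (1 / 4 - η) (1 / 4 - η - ε₁) hsm (by linarith) (by linarith) (s * r)
      have h6 : ((s * r : ℕ) : ℝ) * (1 / 4 - η - (1 / 4 - η - ε₁)) = ε / 4 := by rw [hε₁]; field_simp; ring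
      rw [h6] at h4
      refine h4.trans ?_
      calc (1 / 4 - η - ε₁) ^ (s * r) = ∏ _j : Fin s, ∏ _i : Fin r, (1 / 4 - η - ε₁) := by
            rw [prod_const, prod_const, card_univ, card_univ, Fintype.card_fin, Fintype.card_fin, ← pow_mul, mul_comm r s]
        _ ≤ _ := by
          apply prod_le_prod (fun j _ => prod_nonneg fun i _ => hsm)
          intro j _
          apply prod_le_prod (fun i _ => hsm)
          intro i _
          have hpr : (Nat.nth Nat.Prime (k + j)).Prime := Nat.prime_nth_prime _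
          have h9 : k₁ ≤ Nat.nth Nat.Prime (k + j) := by
            have : k + j ≤ Nat.nth Nat.Prime (k + j) := (Nat.nth_strictMono Nat.infinite_setOfPred_prime).id_le (k + j)
            omega
          have h10 : (k₁ : ℝ) ≤ (Nat.nth Nat.Prime (k + j) : ℕ) := by exact_mod_cast h9
          have h7 := prop_ge η hη hη1 (σ i j) (hσ i j) (Nat.nth Nat.Prime (k + j)) hpr
          refine le_trans ?_ h7
          obtain ⟨P, hP⟩ : ∃ P : ℝ, P = (Nat.nth Nat.Prime (k + j) : ℕ) := ⟨_, rfl⟩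
          rw [← hP] at h10 ⊢
          have h11 : (2 / ε₁) ^ 2 + 2 / ε₁ + 1 ≤ P := by linarith
          have h12 : 0 < 2 / ε₁ := by positivity
          have h13 : 1 / P ≤ ε₁ / 2 := by
            rw [div_le_div_iff₀ (by nlinarith) (by norm_num)]
            have : 2 / ε₁ ≤ P := by nlinarith [sq_nonneg (2 / ε₁)]
            rw [div_le_iff₀ hε₁0] at this
            linarith
          have h14 : 2 / ε₁ ≤ √P := Real.le_sqrt_of_sq_le (by nlinarith)
          have h15 : 1 / √P ≤ ε₁ / 2 := by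
            rw [div_le_div_iff₀ (by linarith) (by norm_num)]
            rw [div_le_iff₀ hε₁0] at h14
            linarith
          linarith
  calc ((1 / 4 - η) ^ (s * r) - ε / 4) * (n - k₁) = ∑ _k ∈ Ico k₁ n, ((1 / 4 - η) ^ (s * r) - ε / 4) := by
        rw [sum_const, Nat.card_Ico, nsmul_eq_mul, Nat.cast_sub hge]
        ring
    _ ≤ _ := sum_le_sum h2

lemma boxes (r d s : ℕ) (hd : 1 ≤ d) (hs : 1 ≤ s) (δ : ℝ) (hδ : 0 < δ) : ∃ κ C : ℝ, 0 < κ ∧ κ ≤ 1 ∧ 1 ≤ C ∧
      ∀ (N : ℕ) (R : ℝ) (f : Fin r → Polynomial ℝ), 1 ≤ N → 1 ≤ R → (∀ i, (f i).natDegree ≤ d) → Generic d N R f →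
      ∃ E : Finset ℕ, (E.card : ℝ) ≤ C * (N * R ^ (-κ)) ∧ ∀ n : ℕ, n < N → n ∉ E →
        ∀ a : Fin r → ℤ, (∀ i, |(a i : ℝ) - (f i).eval (n : ℝ)| ≤ R ^ κ) →
        ∀ K : ℕ, (K : ℝ) ≤ R ^ κ → ∀ I : Fin r → Fin s → Set ℝ, (∀ i j, (I i j).OrdConnected) →
          |(boxCount I K a : ℝ) - boxModel I K| ≤ C * ((K : ℝ) ^ (1 / 2 + δ) * √(1 + Real.log R)) := by
  classical
  obtain ⟨κ, C, h1, h2, h3, H⟩ := Pool.Agent.U471.DQ.near_joint r d s hd hs δ hδ
  refine ⟨κ, C, h1, h2, h3, ?_⟩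
  intro N R f hN hR hf hgen
  obtain ⟨E, _, hE2, hE3⟩ := H N R f hN hR hf hgen angle (fun p a a' h => angle_congr p h)
  refine ⟨E, hE2, fun n hn hnE a ha K hK I hI => ?_⟩
  have h := hE3 n (mem_range.2 hn) hnE a ha K hK I hI
  rw [sum_sub_distrib] at h
  have e1 : (boxCount I K a : ℝ) = ∑ k ∈ range K,
      (if ∀ (i : Fin r) (j : Fin s), angle (Pool.Agent.TH869.SQ.pr (k + j)) (a i) ∈ I i j then (1 : ℝ) else 0) := by
    unfold boxCount Pool.Agent.TH869.SQ.pr
    rw [sum_boole]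
  have e2 : boxModel I K = ∑ k ∈ range K, ∏ j : Fin s, ∏ i : Fin r,
      ((∑ t ∈ range (Pool.Agent.TH869.SQ.pr (k + j)), Pool.Agent.TH869.SQ.ind1 (I i j)
        (angle (Pool.Agent.TH869.SQ.pr (k + j)) (t : ℤ))) / (Pool.Agent.TH869.SQ.pr (k + j) : ℝ)) := by
    unfold boxModel proportion Pool.Agent.TH869.SQ.ind1 Pool.Agent.TH869.SQ.pr
    refine sum_congr rfl fun k _ => prod_congr rfl fun j _ => prod_congr rfl fun i _ => ?_
    rw [sum_boole]
  rw [e1, e2]
  exact h

/-- **(1)** Let `r`, `d ≥ 1` and `s ≥ 1` be integers and let `δ > 0`. There are `κ > 0` and `C` such that the following holds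
for all `N, R ≥ 1` and for all real polynomials `f 0, ..., f (r - 1)` of degree at most `d` which are not on major arcs
(`Generic`). All the integers `0 ≤ n < N` with at most `C N R ^ (- κ)` exceptions are such that for ALL integer vectors `a`
with all `|a i - f i (n)| ≤ R ^ κ`, for every `K ≤ R ^ κ` and all `r s` intervals `I i j`, the number of the `k < K` such that
the angles of the sums `S(a i, 1; p)`, `i < r`, at the `s` consecutive primes with the numbers `k + j` are in the intervals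
`I i j` differs from the expected number (the sum over `k` of the products of the proportions of the residues `t` modulo `p`
for which the angle of `S(t, 1; p)` is in `I i j`) by at most `C K ^ (1 / 2 + δ) (1 + log R) ^ (1 / 2)`.

**(2)** Moreover, there is `θ > 0` such that for `0 ≤ η ≤ 1 / 4`, `ε > 0`, all large `R` and all `N`, `f` as in (1): for all
`0 ≤ n < N` with at most `N R ^ (- θ)` exceptions and ALL integer vectors `a` with `|a i - f i (n)| ≤ R ^ θ`, every pattern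
of `r s` signs occurs for the sums `S(a i, 1; p)`, `i < r`, at `s` consecutive primes, with sums of absolute value greater
than `η p ^ (1 / 2)`, for at least `((1 / 4 - η) ^ (s r) - ε) K` of the indices `k < K`, for all `K` with
`(log R) ^ 2 ≤ K ≤ R ^ θ`.

**(3)** If for every `i` there is `1 ≤ j ≤ d` such that the coefficient of `f i` at `X ^ j` has a finite irrationality exponent
and the coefficients of the other polynomials at `X ^ j` are zero, then (1) and (2) apply with `R = N ^ β`, for some `β > 0`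
and all large `N`. **(4)** This includes irrational algebraic coefficients. -/
theorem result :
    (∀ (r d s : ℕ), 1 ≤ d → 1 ≤ s → ∀ δ : ℝ, 0 < δ → ∃ κ C : ℝ, 0 < κ ∧ 0 < C ∧
      ∀ (N : ℕ) (R : ℝ) (f : Fin r → Polynomial ℝ), 1 ≤ N → 1 ≤ R → (∀ i, (f i).natDegree ≤ d) → Generic d N R f →
      ∃ E : Finset ℕ, (E.card : ℝ) ≤ C * (N * R ^ (-κ)) ∧ ∀ n : ℕ, n < N → n ∉ E →
        ∀ a : Fin r → ℤ, (∀ i, |(a i : ℝ) - (f i).eval (n : ℝ)| ≤ R ^ κ) →
        ∀ K : ℕ, (K : ℝ) ≤ R ^ κ → ∀ I : Fin r → Fin s → Set ℝ, (∀ i j, (I i j).OrdConnected) →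
          |(boxCount I K a : ℝ) - boxModel I K| ≤ C * ((K : ℝ) ^ (1 / 2 + δ) * √(1 + Real.log R))) ∧
    (∀ (r d s : ℕ), 1 ≤ r → 1 ≤ d → 1 ≤ s → ∃ θ : ℝ, 0 < θ ∧ ∀ η ε : ℝ, 0 ≤ η → η ≤ 1 / 4 → 0 < ε → ∃ R₀ : ℝ,
      ∀ (N : ℕ) (R : ℝ) (f : Fin r → Polynomial ℝ), 1 ≤ N → R₀ ≤ R → (∀ i, (f i).natDegree ≤ d) → Generic d N R f →
      ∃ E : Finset ℕ, (E.card : ℝ) ≤ N * R ^ (-θ) ∧ ∀ n : ℕ, n < N → n ∉ E →
        ∀ a : Fin r → ℤ, (∀ i, |(a i : ℝ) - (f i).eval (n : ℝ)| ≤ R ^ θ) →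
        ∀ K : ℕ, Real.log R ^ 2 ≤ K → (K : ℝ) ≤ R ^ θ → ∀ σ : Fin r → Fin s → ℝ, (∀ i j, σ i j = 1 ∨ σ i j = -1) →
          ((1 / 4 - η) ^ (s * r) - ε) * K ≤ signCount σ η K a) ∧
    (∀ (r d : ℕ) (f : Fin r → Polynomial ℝ),
      (∀ i, ∃ j, 1 ≤ j ∧ j ≤ d ∧ FiniteType ((f i).coeff j) ∧ ∀ i', i' ≠ i → (f i').coeff j = 0) →
      ∃ β : ℝ, 0 < β ∧ ∃ N₀ : ℕ, ∀ N : ℕ, N₀ ≤ N → Generic d N ((N : ℝ) ^ β) f) ∧
    (∀ α : ℝ, Irrational α → IsAlgebraic ℚ α → FiniteType α) := by
  classical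
  refine ⟨?_, ?_, ?_, fun α h h' => Pool.Agent.U471.DQ.finType_alg h h'⟩
  · intro r d s hd hs δ hδ
    obtain ⟨κ, C, h1, _, h3, H⟩ := boxes r d s hd hs δ hδ
    exact ⟨κ, C, h1, by linarith, H⟩
  · intro r d s hr hd hs
    obtain ⟨κ₁, C₁, h1, h2, h3, H⟩ := boxes r d s hd hs (1 / 8) (by norm_num)
    refine ⟨κ₁ / 2, by positivity, fun η ε hη hη1 hε => ?_⟩
    obtain ⟨k₁, hk₁⟩ := model_ge r s hr hs η ε hη hη1 hε
    have t1 : Filter.Tendsto (fun R : ℝ => R ^ (κ₁ / 2)) Filter.atTop Filter.atTop := tendsto_rpow_atTop (by positivity)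
    have t2 := Real.tendsto_log_atTop
    have t3 : Filter.Tendsto (fun R : ℝ => Real.log R ^ (1 / 4 : ℝ)) Filter.atTop Filter.atTop :=
      (tendsto_rpow_atTop (by norm_num)).comp t2
    have ev := (t1.eventually_ge_atTop C₁).and ((t2.eventually_ge_atTop (4 * k₁ / ε + k₁ + 1)).and
      (t3.eventually_ge_atTop (4 * C₁ * 2 / ε)))
    obtain ⟨R₀, hR₀⟩ := Filter.eventually_atTop.1 ev
    refine ⟨max R₀ 1, fun N R f hN hR hf hgen => ?_⟩
    obtain ⟨q1, q2, q3⟩ := hR₀ R ((le_max_left _ _).trans hR)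
    have hR1 : 1 ≤ R := (le_max_right _ _).trans hR
    have hR0 : 0 < R := by linarith
    have hk0 : (0 : ℝ) ≤ k₁ := Nat.cast_nonneg _
    have hkε : 0 ≤ 4 * k₁ / ε := by positivity
    have hL1 : 1 ≤ Real.log R := by linarith
    obtain ⟨E, hE1, hE2⟩ := H N R f hN hR1 hf hgen
    have hpow : R ^ (κ₁ / 2) ≤ R ^ κ₁ := Real.rpow_le_rpow_of_exponent_le hR1 (by linarith)
    refine ⟨E, hE1.trans ?_, fun n hn hnE a ha K hK1 hK2 σ hσ => ?_⟩
    · calc C₁ * (N * R ^ (-κ₁)) = N * (C₁ * R ^ (-κ₁)) := by ring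
        _ ≤ N * (R ^ (κ₁ / 2) * R ^ (-κ₁)) := by
            apply mul_le_mul_of_nonneg_left _ (Nat.cast_nonneg _)
            exact mul_le_mul_of_nonneg_right q1 (by positivity)
        _ = _ := by
            rw [← Real.rpow_add hR0]
            congr 2
            ring
    have hL2 : Real.log R ≤ Real.log R ^ 2 := by nlinarith
    have hKL : Real.log R ≤ K := hL2.trans hK1
    have hK0 : (0 : ℝ) < K := by linarith
    have hb := hE2 n hn hnE a (fun i => (ha i).trans hpow) K (hK2.trans hpow) (fun i j => side η (σ i j))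
      (fun i j => side_oc η (σ i j))
    have hcount : boxCount (fun i j => side η (σ i j)) K a = signCount σ η K a := by
      unfold boxCount signCount
      congr 1
      apply filter_congr
      intro k _
      exact forall_congr' fun i => forall_congr' fun j =>
        side_iff η hη hη1 (σ i j) (hσ i j) _ (Nat.prime_nth_prime _).pos _
    rw [hcount] at hb
    have hmod := hk₁ K (by
      have : (k₁ : ℝ) ≤ K := by linarith
      exact_mod_cast this) σ hσ
    -- the error term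
    have herr : C₁ * ((K : ℝ) ^ (1 / 2 + 1 / 8 : ℝ) * √(1 + Real.log R)) ≤ ε / 4 * K := by
      have r1 : √(1 + Real.log R) ≤ 2 * Real.log R ^ (1 / 2 : ℝ) := by
        rw [← Real.sqrt_eq_rpow]
        have : 1 + Real.log R ≤ 4 * Real.log R := by linarith
        calc √(1 + Real.log R) ≤ √(4 * Real.log R) := Real.sqrt_le_sqrt this
          _ = 2 * √(Real.log R) := by
              rw [Real.sqrt_mul (by norm_num), show (4 : ℝ) = 2 ^ 2 by norm_num, Real.sqrt_sq (by norm_num)]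
      have r2 : Real.log R ^ (3 / 4 : ℝ) ≤ (K : ℝ) ^ (3 / 8 : ℝ) := by
        calc Real.log R ^ (3 / 4 : ℝ) = (Real.log R ^ 2) ^ (3 / 8 : ℝ) := by
              rw [← Real.rpow_natCast, ← Real.rpow_mul (by linarith)]
              norm_num
          _ ≤ _ := Real.rpow_le_rpow (by positivity) hK1 (by norm_num)
      have r3 : Real.log R ^ (1 / 2 : ℝ) * Real.log R ^ (1 / 4 : ℝ) = Real.log R ^ (3 / 4 : ℝ) := by
        rw [← Real.rpow_add (by linarith)]
        norm_num
      have r4 : (K : ℝ) = (K : ℝ) ^ (1 / 2 + 1 / 8 : ℝ) * (K : ℝ) ^ (3 / 8 : ℝ) := by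
        rw [← Real.rpow_add hK0]
        norm_num
      have r5 : C₁ * √(1 + Real.log R) ≤ ε / 4 * (K : ℝ) ^ (3 / 8 : ℝ) := by
        have r6 : 4 * C₁ * 2 / ε * Real.log R ^ (1 / 2 : ℝ) ≤ Real.log R ^ (1 / 2 : ℝ) * Real.log R ^ (1 / 4 : ℝ) := by
          rw [mul_comm]
          exact mul_le_mul_of_nonneg_left q3 (by positivity)
        rw [r3] at r6
        have r7 := r6.trans r2
        have r8 : C₁ * (2 * Real.log R ^ (1 / 2 : ℝ)) = ε / 4 * (4 * C₁ * 2 / ε * Real.log R ^ (1 / 2 : ℝ)) := by field_simp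
        calc C₁ * √(1 + Real.log R) ≤ C₁ * (2 * Real.log R ^ (1 / 2 : ℝ)) := mul_le_mul_of_nonneg_left r1 (by linarith)
          _ = _ := r8
          _ ≤ _ := mul_le_mul_of_nonneg_left r7 (by positivity)
      calc C₁ * ((K : ℝ) ^ (1 / 2 + 1 / 8 : ℝ) * √(1 + Real.log R)) =
            (K : ℝ) ^ (1 / 2 + 1 / 8 : ℝ) * (C₁ * √(1 + Real.log R)) := by ring
        _ ≤ (K : ℝ) ^ (1 / 2 + 1 / 8 : ℝ) * (ε / 4 * (K : ℝ) ^ (3 / 8 : ℝ)) := mul_le_mul_of_nonneg_left r5 (by positivity)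
        _ = ε / 4 * ((K : ℝ) ^ (1 / 2 + 1 / 8 : ℝ) * (K : ℝ) ^ (3 / 8 : ℝ)) := by ring
        _ = ε / 4 * K := by rw [← r4]
    have e2 : (k₁ : ℝ) ≤ ε / 4 * K := by
      have h4 : (4 * k₁ / ε : ℝ) ≤ K := by linarith
      rw [div_le_iff₀ hε] at h4
      linarith
    have e3 : (1 / 4 - η) ^ (s * r) ≤ 1 := pow_le_one₀ (by linarith) (by linarith)
    have e4 : ((1 / 4 - η) ^ (s * r) - ε / 4) * k₁ ≤ ε / 4 * K := by nlinarith
    have hb2 := (abs_le.1 hb).1
    nlinarith
  · intro r d f h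
    obtain ⟨β, h1, _, h3⟩ := Pool.Agent.U471.DQ.gen_of_type d f h
    exact ⟨β, h1, h3⟩

end Pool.Agent.Results.MP_6ea630_nt.JointRealPolynomials
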