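import Pool.Agent.U62.RB.Klo

/-!
# The fluctuations of the Kloosterman angles of random integers are normal

For fixed `a` nothing is known about the distribution of the angles `θ_p(a)`, `S(a, 1; p) = 2 √p cos θ_p(a)`, over the primes `p`.
For random integers `a`, `|a| ≤ H`, and primes `p ≤ y`, where `H ≥ y ^ K`, we show that the errors in the horizontal law of Sato and
Tate are asymptotically normal: for arbitrary bounded functions of the angles, without any hypothesis for the number of the
primes with a positive sum, and jointly for the sums of `2 cos θ_p(a + h)` over the primes at several shifts `h`, which become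
independent, so that the sums over the primes are a white noise in `a`.
-/

set_option autoImplicit false

namespace Pool.Agent.Results.MP_6ea630_nt.NormalLaw

open Finset MeasureTheory ProbabilityTheory

/-- The Kloosterman sum `S(a, 1; p)`. -/
noncomputable def kloosterman (a : ℤ) (p : ℕ) : ℝ :=
  ∑ x ∈ Ico 1 p, Real.cos (2 * Real.pi * ((((a : ZMod p) * (x : ZMod p) + (x : ZMod p)⁻¹).val : ℕ) : ℝ) / (p : ℝ))

/-- The value of the function `f` at `cos θ_p(a) = S(a, 1; p) / (2 √p)`, and `0` if `p` divides `a`. -/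
noncomputable def value (f : ℝ → ℝ) (a : ℤ) (p : ℕ) : ℝ :=
  if (p : ℤ) ∣ a then 0 else f (kloosterman a p / (2 * √p))

/-- The expectation in the independent model: the sum of the mean values over the residues modulo `p`. -/
noncomputable def mean (f : ℕ → ℝ → ℝ) (P : Finset ℕ) : ℝ :=
  ∑ p ∈ P, (∑ t ∈ range p, value (f p) t p) / p

/-- The variance in the independent model: the sum of the variances over the residues modulo `p`. -/
noncomputable def variance (f : ℕ → ℝ → ℝ) (P : Finset ℕ) : ℝ :=
  ∑ p ∈ P, ((∑ t ∈ range p, value (f p) t p ^ 2) / p - ((∑ t ∈ range p, value (f p) t p) / p) ^ 2)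

/-- The proportion of the residues `t` modulo `p` for which `S(t, 1; p)` is positive. -/
noncomputable def positive (p : ℕ) : ℝ := (((range p).filter fun t : ℕ => 0 < kloosterman t p).card : ℝ) / p

/-- The proportion of the integers `a` of absolute value at most `H` which have the property `Q`. -/
noncomputable def proportion (H : ℕ) (Q : ℤ → Prop) : ℝ := ({a : ℤ | |a| ≤ H ∧ Q a}.ncard : ℝ) / (2 * H + 1)

/-- The distribution function of the standard normal law. -/
noncomputable def normal (u : ℝ) : ℝ := (gaussianReal 0 1).real (Set.Iic u)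

theorem prop_one (H : ℕ) (Q : ℤ → Prop) :
    Pool.Agent.U62.RB.prop H (fun c : Fin 1 → ℤ => Q (c 0)) = proportion H Q := by
  unfold Pool.Agent.U62.RB.prop proportion
  rw [pow_one]
  congr 2
  refine Set.ncard_congr (fun c _ => c 0) ?_ ?_ ?_
  · intro c hc
    exact ⟨hc.1 0, hc.2⟩
  · intro c c' _ _ h
    funext i
    rw [Subsingleton.elim i 0]
    exact h
  · intro a ha
    exact ⟨fun _ => a, ⟨fun _ => ha.1, ha.2⟩, rfl⟩

theorem lmean_range (f : ℤ → ℝ) (p : ℕ) :
    Pool.Agent.U62.RB.lmean (fun c : Fin 1 → ℤ => f (c 0)) p = (∑ t ∈ range p, f t) / p := by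
  unfold Pool.Agent.U62.RB.lmean
  rw [pow_one]
  congr 1
  refine Finset.sum_bij (fun t _ => t 0) ?_ ?_ ?_ ?_
  · intro t ht
    rw [Fintype.mem_piFinset] at ht
    exact ht 0
  · intro t _ t' _ h
    funext i
    rw [Subsingleton.elim i 0]
    exact h
  · intro a ha
    refine ⟨fun _ => a, ?_, rfl⟩
    rw [Fintype.mem_piFinset]
    exact fun _ => ha
  · intro t _
    rfl

theorem value_congr (f : ℝ → ℝ) (p : ℕ) {a b : ℤ} (h : (p : ℤ) ∣ a - b) : value f a p = value f b p := by
  unfold value
  have e : kloosterman a p = kloosterman b p := Pool.Agent.U62.RB.kl_congr h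
  rw [e]
  by_cases ha : (p : ℤ) ∣ a
  · rw [if_pos ha, if_pos ((dvd_iff_dvd_of_dvd_sub h).1 ha)]
  · rw [if_neg ha, if_neg fun hb => ha ((dvd_iff_dvd_of_dvd_sub h).2 hb)]

theorem value_abs {f : ℝ → ℝ} (hf : ∀ t, |f t| ≤ 1) (a : ℤ) (p : ℕ) : |value f a p| ≤ 1 := by
  unfold value
  split_ifs
  · rw [abs_zero]
    exact zero_le_one
  · exact hf _

theorem general (u : ℝ) {ε : ℝ} (hε : 0 < ε) : ∃ K : ℕ, ∀ (f : ℕ → ℝ → ℝ) (P : Finset ℕ) (y H : ℕ),
    (∀ p ∈ P, p.Prime ∧ p ≤ y) → (∀ p ∈ P, ∀ t, |f p t| ≤ 1) → K ≤ variance f P → y ^ K ≤ H →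
      |proportion H (fun a => ∑ p ∈ P, value (f p) a p ≤ mean f P + u * √(variance f P)) - normal u| ≤ ε := by
  obtain ⟨K, hK⟩ := Pool.Agent.U62.RB.normal_fun 1 u hε
  refine ⟨K, fun f P y H hP hf hV hH => ?_⟩
  have e1 : ∑ p ∈ P, Pool.Agent.U62.RB.lmean (fun c : Fin 1 → ℤ => value (f p) (c 0) p) p = mean f P := by
    refine Finset.sum_congr rfl fun p _ => ?_
    exact lmean_range (fun a => value (f p) a p) p
  have e2 : ∑ p ∈ P, Pool.Agent.U62.RB.lvar (fun c : Fin 1 → ℤ => value (f p) (c 0) p) p = variance f P := by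
    refine Finset.sum_congr rfl fun p _ => ?_
    unfold Pool.Agent.U62.RB.lvar
    rw [lmean_range (fun a => value (f p) a p ^ 2) p, lmean_range (fun a => value (f p) a p) p]
  have h := hK (fun p c => value (f p) (c 0) p) P 1 y H one_pos hP
    (fun p _ c c' hc => value_congr (f p) p (hc 0))
    (fun p hp c => value_abs (hf p hp) _ _) (by
      rw [e2, one_pow, mul_one]
      exact hV) hH
  rw [e1, e2] at h
  have e3 := prop_one H (fun a => ∑ p ∈ P, value (f p) a p ≤ mean f P + u * √(variance f P))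
  rw [e3] at h
  exact h

/-- The function with the value `1` at the positive numbers and `0` elsewhere. -/
noncomputable def step (x : ℝ) : ℝ := if 0 < x then 1 else 0

theorem kl_neg {a : ℤ} {p : ℕ} (hp : p.Prime) (h : (p : ℤ) ∣ a) : ¬ 0 < kloosterman a p := by
  have hF : Fact p.Prime := ⟨hp⟩
  have e0 : (a : ZMod p) = 0 := (ZMod.intCast_zmod_eq_zero_iff_dvd a p).2 h
  have h1 : kloosterman a p = -1 := by
    have h2 := Pool.Agent.U62.RB.kl_eq (p := p) a
    have h3 : Pool.Agent.TH375.KL.KK p (0 : ZMod p) 1 = -1 := by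
      unfold Pool.Agent.TH375.KL.KK Pool.Agent.Helper916.Kl
      simp only [zero_mul, zero_add, one_mul]
      have h1 : ∑ z : ZMod p, ZMod.stdAddChar z = (0 : ℂ) := by
        have := AddChar.sum_mulShift (1 : ZMod p) (Pool.Agent.TH375.KL.prim (p := p))
        rw [if_neg one_ne_zero, Nat.cast_zero] at this
        rw [← this]
        exact sum_congr rfl fun z _ => by rw [mul_one]
      have h2 : ∑ z ∈ univ.erase (0 : ZMod p), ZMod.stdAddChar z⁻¹ = ∑ z ∈ univ.erase (0 : ZMod p), (ZMod.stdAddChar z : ℂ) := by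
        refine Finset.sum_bij (fun z _ => z⁻¹) ?_ ?_ ?_ ?_
        · intro z hz
          rw [mem_erase] at hz ⊢
          exact ⟨inv_ne_zero hz.1, mem_univ _⟩
        · intro x _ y _ hxy
          exact inv_injective hxy
        · intro y hy
          rw [mem_erase] at hy
          exact ⟨y⁻¹, mem_erase.2 ⟨inv_ne_zero hy.1, mem_univ _⟩, inv_inv y⟩
        · intro z _
          rfl
      rw [h2]
      rw [← add_sum_erase _ _ (mem_univ (0 : ZMod p)), AddChar.map_zero_eq_one] at h1
      linear_combination h1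
    rw [e0] at h2
    unfold Pool.Agent.TH375.KL.rk at h2
    rw [h3] at h2
    have h4 : kloosterman a p = Pool.Agent.U62.RB.kl p a := rfl
    rw [h4]
    simpa using h2
  rw [h1]
  norm_num

theorem value_step (a : ℤ) {p : ℕ} (hp : p.Prime) :
    value step a p = if 0 < kloosterman a p then 1 else 0 := by
  have hp0 : (0 : ℝ) < p := by exact_mod_cast hp.pos
  have hs : 0 < √(p : ℝ) := Real.sqrt_pos.2 hp0
  unfold value
  by_cases h : (p : ℤ) ∣ a
  · rw [if_pos h, if_neg (kl_neg hp h)]
  · rw [if_neg h]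
    unfold step
    by_cases h2 : 0 < kloosterman a p
    · rw [if_pos h2, if_pos (by positivity)]
    · rw [if_neg h2, if_neg]
      intro h3
      refine h2 ?_
      by_contra h4
      have h5 : kloosterman a p / (2 * √p) ≤ 0 := div_nonpos_of_nonpos_of_nonneg (not_lt.1 h4) (by positivity)
      linarith

theorem mean_step (P : Finset ℕ) (hP : ∀ p ∈ P, p.Prime) : mean (fun _ => step) P = ∑ p ∈ P, positive p := by
  unfold mean positive
  refine Finset.sum_congr rfl fun p hp => ?_
  have e : ∑ t ∈ range p, value step t p = ((range p).filter fun t : ℕ => 0 < kloosterman t p).card := by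
    rw [Finset.sum_congr rfl fun (t : ℕ) _ => value_step (t : ℤ) (hP p hp), Finset.sum_boole]
  dsimp only
  rw [e]

theorem variance_step (P : Finset ℕ) (hP : ∀ p ∈ P, p.Prime) :
    variance (fun _ => step) P = ∑ p ∈ P, positive p * (1 - positive p) := by
  unfold variance positive
  refine Finset.sum_congr rfl fun p hp => ?_
  have e : ∀ t ∈ range p, value step t p ^ 2 = value step t p := by
    intro t _
    rw [value_step t (hP p hp)]
    split_ifs <;> norm_num
  have e2 : ∑ t ∈ range p, value step t p = ((range p).filter fun t : ℕ => 0 < kloosterman t p).card := by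
    rw [Finset.sum_congr rfl fun (t : ℕ) _ => value_step (t : ℤ) (hP p hp), Finset.sum_boole]
  dsimp only
  rw [Finset.sum_congr rfl e, e2]
  ring

open scoped Classical in
theorem positive_bounds {p : ℕ} (hp : p.Prime) :
    1 / 4 - 1 / √p ≤ positive p ∧ positive p ≤ 1 - (1 / 4 - 1 / √p) := by
  have hF : Fact p.Prime := ⟨hp⟩
  have hN : NeZero p := ⟨hp.ne_zero⟩
  have hp0 : (0 : ℝ) < p := by exact_mod_cast hp.pos
  have e : positive p = (∑ a : ZMod p, if 0 < Pool.Agent.TH375.KL.rk p a 1 then (1 : ℝ) else 0) / p := by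
    have h1 := Pool.Agent.U62.RB.lmean_one (p := p) (fun a => if 0 < Pool.Agent.TH375.KL.rk p a 1 then (1 : ℝ) else 0)
    rw [← h1]
    have h2 := lmean_range (fun a => if 0 < Pool.Agent.TH375.KL.rk p (a : ZMod p) 1 then (1 : ℝ) else 0) p
    rw [h2]
    unfold positive
    congr 1
    rw [Finset.sum_boole]
    refine congrArg (fun z : ℕ => (z : ℝ)) (congrArg Finset.card ?_)
    ext t
    rw [Finset.mem_filter, Finset.mem_filter]
    refine and_congr_right fun _ => ?_
    have h3 : kloosterman (t : ℤ) p = Pool.Agent.TH375.KL.rk p ((t : ℤ) : ZMod p) 1 := Pool.Agent.U62.RB.kl_eq (t : ℤ)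
    rw [h3]
  have h1 := Pool.Agent.TH375.KL.sign_mean (p := p) (σ := 1) (by norm_num) (η := 0) le_rfl
  have h2 := Pool.Agent.TH375.KL.sign_mean (p := p) (σ := -1) (by norm_num) (η := 0) le_rfl
  simp only [zero_mul, one_mul, sub_zero] at h1 h2
  rw [e, le_div_iff₀ hp0, div_le_iff₀ hp0]
  refine ⟨h1, ?_⟩
  have h3 : ∑ a : ZMod p, (if 0 < Pool.Agent.TH375.KL.rk p a 1 then (1 : ℝ) else 0) +
      ∑ a : ZMod p, (if 0 < -1 * Pool.Agent.TH375.KL.rk p a 1 then (1 : ℝ) else 0) ≤ p := by
    rw [← Finset.sum_add_distrib]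
    calc ∑ a : ZMod p, ((if 0 < Pool.Agent.TH375.KL.rk p a 1 then (1 : ℝ) else 0) +
          (if 0 < -1 * Pool.Agent.TH375.KL.rk p a 1 then (1 : ℝ) else 0)) ≤ ∑ _a : ZMod p, (1 : ℝ) := by
          refine Finset.sum_le_sum fun a _ => ?_
          by_cases h4 : 0 < Pool.Agent.TH375.KL.rk p a 1
          · rw [if_pos h4, if_neg (by linarith)]
            norm_num
          · rw [if_neg h4]
            split_ifs <;> norm_num
      _ = p := by
          rw [Finset.sum_const, nsmul_eq_mul, mul_one, Finset.card_univ, ZMod.card]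
  linarith

theorem variance_lower (P : Finset ℕ) (hP : ∀ p ∈ P, p.Prime) :
    ((P.card : ℝ) - 64) / 16 ≤ ∑ p ∈ P, positive p * (1 - positive p) := by
  have h01 : ∀ p ∈ P, 0 ≤ positive p ∧ positive p ≤ 1 := by
    intro p hp
    have hp0 : (0 : ℝ) < p := by exact_mod_cast (hP p hp).pos
    unfold positive
    refine ⟨by positivity, ?_⟩
    rw [div_le_one hp0]
    have h1 : ((range p).filter fun t : ℕ => 0 < kloosterman t p).card ≤ p := by
      refine (Finset.card_filter_le _ _).trans ?_
      rw [Finset.card_range]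
    exact_mod_cast h1
  have h1 : ∑ p ∈ P, ((1 : ℝ) - (if p < 64 then 1 else 0)) / 16 ≤ ∑ p ∈ P, positive p * (1 - positive p) := by
    refine Finset.sum_le_sum fun p hp => ?_
    obtain ⟨h2, h3⟩ := h01 p hp
    by_cases h64 : p < 64
    · rw [if_pos h64]
      nlinarith
    · rw [if_neg h64]
      obtain ⟨h4, h5⟩ := positive_bounds (hP p hp)
      have h6 : (8 : ℝ) ≤ √p := by
        refine Real.le_sqrt_of_sq_le ?_
        have : (64 : ℝ) ≤ p := by
          push Not at h64
          exact_mod_cast h64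
        linarith
      have h7 : 1 / √(p : ℝ) ≤ 1 / 8 := one_div_le_one_div_of_le (by norm_num) h6
      nlinarith
  refine le_trans ?_ h1
  rw [← Finset.sum_div, Finset.sum_sub_distrib, Finset.sum_const, nsmul_eq_mul, mul_one]
  have h3 : ∑ p ∈ P, (if p < 64 then (1 : ℝ) else 0) ≤ 64 := by
    rw [Finset.sum_boole]
    have : (P.filter fun p => p < 64).card ≤ 64 := by
      calc (P.filter fun p => p < 64).card ≤ (range 64).card := by
            refine Finset.card_le_card fun p hp => ?_
            rw [Finset.mem_filter] at hp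
            exact Finset.mem_range.2 hp.2
        _ = 64 := Finset.card_range 64
    exact_mod_cast this
  gcongr

/-- **The normal law for the Kloosterman angles of random integers.**
(1) For all `u` and `ε > 0` there is a `K` such that for all functions `f_p : ℝ → [-1, 1]` and every finite set `P` of primes
`p ≤ y` for which the variance of the independent model is at least `K`, and for all `H ≥ y ^ K`, the proportion of the
`|a| ≤ H` with `∑_{p ∈ P} f_p(cos θ_p(a)) ≤ mean + u √variance` (primes which do not divide `a`) differs from the value `Φ(u)`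
of the normal distribution function by at most `ε`.
(2) For all `u` and `ε > 0` there is a `K` such that for every set `P` of at least `K` primes `p ≤ y` and all `H ≥ y ^ K` the
proportion of the `|a| ≤ H` for which the number of the `p ∈ P` with `S(a, 1; p) > 0` is at most `∑ d_p + u √(∑ d_p (1 - d_p))`
differs from `Φ(u)` by at most `ε`, where `d_p` is the proportion of the residues `t` modulo `p` with `S(t, 1; p) > 0`.
(3) Let `h_1, ..., h_k` be different integers. For all `u_1, ..., u_k`, `δ > 0` and `ε > 0` there is a `K` such that for every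
set `P` of at least `K` primes `p ≤ y`, all weights `|w_p| ≤ 1` with `∑ w_p² ≥ δ |P|` and all `H ≥ y ^ K` the
proportion of the `|a| ≤ H` with `∑_{p ∈ P} w_p S(a + h_i, 1; p) / √p ≤ u_i √(∑ w_p²)` for all `i` differs
from `Φ(u_1) ⋯ Φ(u_k)` by at most `ε`. -/
theorem result :
    (∀ u ε : ℝ, 0 < ε → ∃ K : ℕ, ∀ (f : ℕ → ℝ → ℝ) (P : Finset ℕ) (y H : ℕ),
      (∀ p ∈ P, p.Prime ∧ p ≤ y) → (∀ p ∈ P, ∀ t, |f p t| ≤ 1) → K ≤ variance f P → y ^ K ≤ H →
        |proportion H (fun a => ∑ p ∈ P, value (f p) a p ≤ mean f P + u * √(variance f P)) - normal u| ≤ ε) ∧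
    (∀ u ε : ℝ, 0 < ε → ∃ K : ℕ, ∀ (P : Finset ℕ) (y H : ℕ), (∀ p ∈ P, p.Prime ∧ p ≤ y) → K ≤ P.card → y ^ K ≤ H →
        |proportion H (fun a => ((P.filter fun p => 0 < kloosterman a p).card : ℝ) ≤ ∑ p ∈ P, positive p +
          u * √(∑ p ∈ P, positive p * (1 - positive p))) - normal u| ≤ ε) ∧
    (∀ (k : ℕ) (h : Fin k → ℤ), Function.Injective h → ∀ (u : Fin k → ℝ) (δ ε : ℝ), 0 < δ → 0 < ε → ∃ K : ℕ,
      ∀ (P : Finset ℕ) (w : ℕ → ℝ) (y H : ℕ), (∀ p ∈ P, p.Prime ∧ p ≤ y) → K ≤ P.card →
        (∀ p ∈ P, |w p| ≤ 1) → δ * P.card ≤ ∑ p ∈ P, w p ^ 2 → y ^ K ≤ H →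
        |proportion H (fun a => ∀ i, ∑ p ∈ P, w p * (kloosterman (a + h i) p / √p) ≤ u i * √(∑ p ∈ P, w p ^ 2)) -
          ∏ i, normal (u i)| ≤ ε) := by
  refine ⟨fun u ε hε => general u hε, fun u ε hε => ?_, fun k h hh u δ ε hδ hε => ?_⟩
  · obtain ⟨K, hK⟩ := general u hε
    refine ⟨16 * K + 64, fun P y H hP hc hH => ?_⟩
    have hPp : ∀ p ∈ P, p.Prime := fun p hp => (hP p hp).1
    have h1 := variance_lower P hPp
    have hcr : ((16 * K + 64 : ℕ) : ℝ) ≤ P.card := by exact_mod_cast hc
    have hy : 0 < y := by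
      obtain ⟨p, hp⟩ := Finset.card_pos.1 (by omega : 0 < P.card)
      have := (hP p hp).1.pos
      have := (hP p hp).2
      omega
    have h2 := hK (fun _ => step) P y H hP (fun p _ t => by
      unfold step
      split_ifs <;> norm_num) (by
      rw [variance_step P hPp]
      refine le_trans ?_ h1
      rw [le_div_iff₀ (by norm_num)]
      push_cast at hcr
      linarith) ((Nat.pow_le_pow_right hy (by omega)).trans hH)
    rw [mean_step P hPp, variance_step P hPp] at h2
    have e : ∀ a : ℤ, ∑ p ∈ P, value step a p = ((P.filter fun p => 0 < kloosterman a p).card : ℝ) := by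
      intro a
      rw [Finset.sum_congr rfl fun p hp => value_step a (hPp p hp), Finset.sum_boole]
    simp only [e] at h2
    exact h2
  · obtain ⟨K, hK⟩ := Pool.Agent.U62.RB.kl_joint k h hh u hδ hε
    refine ⟨K, fun P w y H hP hc hw hws hH => ?_⟩
    have h1 := hK P w y H hP hc hw hws hH
    have e := prop_one H (fun a => ∀ i, ∑ p ∈ P, w p * (kloosterman (a + h i) p / √p) ≤ u i * √(∑ p ∈ P, w p ^ 2))
    rw [← e]
    exact h1

end Pool.Agent.Results.MP_6ea630_nt.NormalLaw
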