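import Pool.Agent.U349.ST.Finite
import Pool.Agent.U349.ST.Prime

/-!
# Kloosterman angles: the Sato-Tate law is a law of signs

`cos (k θ_p(a))` is, up to the factor `± 2 p ^ (k / 2)` whose sign depends on `k` only, the Kloosterman
sum over the field with `p ^ k` elements (and `T_k (S(a, 1; p) / (2 √p))`, `T_k` the polynomial of
Chebyshev).
-/

set_option autoImplicit false

namespace Pool.Agent.Results.MP_6ea630_nt.SignsOfExtensionSums

open Filter Topology

/-- the Kloosterman sum `S(a, 1; p)` -/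
noncomputable def Kl (a : ℤ) (p : ℕ) : ℝ :=
  ∑ x ∈ Finset.Ico 1 p, Real.cos (2 * Real.pi *
    ((((a : ZMod p) * (x : ZMod p) + (x : ZMod p)⁻¹).val : ℕ) : ℝ) / (p : ℝ))

/-- the angle `θ_p(a)` -/
noncomputable def angle (a : ℤ) (p : ℕ) : ℝ := Real.arccos (Kl a p / (2 * Real.sqrt (p : ℝ)))

/-- the horizontal Sato-Tate law for `a` -/
def SatoTate (a : ℤ) : Prop :=
  ∀ α β : ℝ, 0 ≤ α → α ≤ β → β ≤ Real.pi →
    Tendsto (fun N : ℕ => (({p : ℕ | p ≤ N ∧ p.Prime ∧ Nat.Coprime p a.natAbs ∧
      α ≤ angle a p ∧ angle a p ≤ β} : Set ℕ).ncard : ℝ) / (Nat.primeCounting N : ℝ)) atTop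
      (𝓝 ((2 / Real.pi) * ∫ u in α..β, Real.sin u ^ 2))

/-- the law of the signs for `a`: among the primes `p ≤ N`, `p ∤ a`, the proportion of those with
`cos (k θ_p(a)) > 0` minus the proportion of those with `cos (k θ_p(a)) < 0` tends to `0`, for `k = 2`
to `- 2 / π` -/
def Signs (a : ℤ) : Prop :=
  ∀ k : ℕ, 1 ≤ k →
    Tendsto (fun N : ℕ => ((({p : ℕ | p ≤ N ∧ p.Prime ∧ Nat.Coprime p a.natAbs ∧
      0 < Real.cos (k * angle a p)} : Set ℕ).ncard : ℝ) - (({p : ℕ | p ≤ N ∧ p.Prime ∧
      Nat.Coprime p a.natAbs ∧ Real.cos (k * angle a p) < 0} : Set ℕ).ncard : ℝ)) /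
      (Nat.primeCounting N : ℝ)) atTop (𝓝 (if k = 2 then -(2 / Real.pi) else 0))

open Pool.Agent.U349.ST

lemma card_eq (a : ℤ) (N : ℕ) (P : ℕ → Prop) [DecidablePred P] :
    ({p : ℕ | p ≤ N ∧ p.Prime ∧ Nat.Coprime p a.natAbs ∧ P p} : Set ℕ).ncard =
      ((PS a N).filter P).card := by
  rw [← Set.ncard_coe_finset]
  congr 1
  ext p
  simp only [Set.mem_ofPred_eq, Finset.coe_filter, mem_PS]
  tauto

/-- (A) For every `a ≠ 0` the Sato-Tate law for the angles `θ_p(a)` is equivalent to the law of the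
signs. (B) For every `ε > 0` there are `K` and `δ > 0` such that for every `a` and every finite set
`P` of primes (for instance of primes in a short interval or in a progression) the following holds: if
for all `k ≤ K` the number of `p ∈ P` with `cos (k θ_p(a)) > 0` minus the number of those with
`cos (k θ_p(a)) < 0` differs from its expected value by at most `δ #P`, then for every interval
`[α, β] ⊆ [0, π]` the number of the `p ∈ P` with `θ_p(a) ∈ [α, β]` differs from the value expected by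
the Sato-Tate law by at most `ε #P`. -/
theorem result :
    (∀ a : ℤ, a ≠ 0 → (SatoTate a ↔ Signs a)) ∧
    (∀ ε : ℝ, 0 < ε → ∃ K : ℕ, ∃ δ : ℝ, 0 < δ ∧ ∀ (a : ℤ) (P : Finset ℕ),
      (∀ k : ℕ, 1 ≤ k → k ≤ K →
        |(((P.filter fun p => 0 < Real.cos (k * angle a p)).card : ℝ) -
          (P.filter fun p => Real.cos (k * angle a p) < 0).card) -
          (if k = 2 then -(2 / Real.pi) else 0) * P.card| ≤ δ * P.card) →
      ∀ α β : ℝ, 0 ≤ α → α ≤ β → β ≤ Real.pi →
        |((P.filter fun p => α ≤ angle a p ∧ angle a p ≤ β).card : ℝ) -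
          (2 / Real.pi * ∫ u in α..β, Real.sin u ^ 2) * P.card| ≤ ε * P.card) := by
  constructor
  · intro a ha
    have hd := data_prime a ha (fun p => Kl a p / (2 * Real.sqrt (p : ℝ)))
    have h := intLaw_iff hd
    have e1 : SatoTate a ↔ IntLaw (PS a) (fun N => (Nat.primeCounting N : ℝ))
        (fun p => Real.arccos (Kl a p / (2 * Real.sqrt (p : ℝ)))) := by
      unfold SatoTate IntLaw
      refine forall_congr' fun α => forall_congr' fun β => forall₃_congr fun _ _ _ => ?_
      have : ∀ N : ℕ, (({p : ℕ | p ≤ N ∧ p.Prime ∧ Nat.Coprime p a.natAbs ∧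
          α ≤ angle a p ∧ angle a p ≤ β} : Set ℕ).ncard : ℝ) =
          (((PS a N).filter fun p => α ≤ angle a p ∧ angle a p ≤ β).card : ℝ) := by
        intro N
        rw [card_eq a N (fun p => α ≤ angle a p ∧ angle a p ≤ β)]
      simp only [this]
      rfl
    have e2 : Signs a ↔ SignLaw (PS a) (fun N => (Nat.primeCounting N : ℝ))
        (fun p => Real.arccos (Kl a p / (2 * Real.sqrt (p : ℝ)))) := by
      unfold Signs SignLaw
      refine forall₂_congr fun k _ => ?_
      have h1 : ∀ N : ℕ, (({p : ℕ | p ≤ N ∧ p.Prime ∧ Nat.Coprime p a.natAbs ∧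
          0 < Real.cos (k * angle a p)} : Set ℕ).ncard : ℝ) =
          (((PS a N).filter fun p => 0 < Real.cos (k * angle a p)).card : ℝ) := by
        intro N
        rw [card_eq a N (fun p => 0 < Real.cos (k * angle a p))]
      have h2 : ∀ N : ℕ, (({p : ℕ | p ≤ N ∧ p.Prime ∧ Nat.Coprime p a.natAbs ∧
          Real.cos (k * angle a p) < 0} : Set ℕ).ncard : ℝ) =
          (((PS a N).filter fun p => Real.cos (k * angle a p) < 0).card : ℝ) := by
        intro N
        rw [card_eq a N (fun p => Real.cos (k * angle a p) < 0)]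
      simp only [h1, h2]
      rfl
    rw [e1, e2]
    exact h
  · intro ε hε
    obtain ⟨K, δ, hδ, hK⟩ := finite_form ε hε
    refine ⟨K, δ, hδ, fun a P hP α β hα hαβ hβ => ?_⟩
    exact hK P (fun p => angle a p) (fun _ => Real.arccos_nonneg _) (fun _ => Real.arccos_le_pi _)
      (fun k hk1 hk2 => hP k hk1 hk2) α β hα hαβ hβ

end Pool.Agent.Results.MP_6ea630_nt.SignsOfExtensionSums
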